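import Mathlib

/-! Finite abelian groups whose subgroups of order `p q` are cyclic. -/

set_option autoImplicit false

namespace Pool.Agent.Q274.HI

theorem card_pow_prime_le {G : Type} [CommGroup G] [Finite G]
    (h : ∀ (A : Subgroup G) (p q : ℕ), p.Prime → q.Prime → Nat.card A = p * q → IsCyclic A)
    {p : ℕ} (hp : p.Prime) : Nat.card (powMonoidHom p : G →* G).ker ≤ p := by
  have : Fact p.Prime := ⟨hp⟩
  set Ω := (powMonoidHom p : G →* G).ker with hΩ
  have hmem : ∀ x ∈ Ω, x ^ p = 1 := fun x hx => hx
  have hpg : IsPGroup p Ω := fun x => ⟨1, by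
    apply Subtype.ext
    rw [pow_one]
    exact hmem x.1 x.2⟩
  obtain ⟨k, hk⟩ := IsPGroup.iff_card.1 hpg
  by_contra hcon
  have hcon := not_le.1 hcon
  have hk2 : 2 ≤ k := by
    by_contra h'
    have h' : k ≤ 1 := by omega
    have : Nat.card Ω ≤ p ^ 1 := by
      rw [hk]
      exact Nat.pow_le_pow_right hp.pos h'
    rw [pow_one] at this
    exact absurd hcon (not_lt.2 this)
  obtain ⟨B, hB⟩ := Sylow.exists_subgroup_card_pow_prime (G := Ω) p (n := 2)
    (by rw [hk]; exact pow_dvd_pow p hk2)
  have hB' : Nat.card (B.map Ω.subtype) = p * p := by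
    rw [Nat.card_congr (B.equivMapOfInjective _ Ω.subtype_injective).toEquiv.symm, hB, sq]
  have hc := h _ p p hp hp hB'
  obtain ⟨g, hg⟩ := hc.exists_generator
  have h1 : orderOf g = p * p := by
    rw [orderOf_eq_card_of_forall_mem_zpowers hg, hB']
  have h2 : g ^ p = 1 := by
    apply Subtype.ext
    obtain ⟨x, hx⟩ := g
    obtain ⟨y, -, rfl⟩ := hx
    exact hmem y.1 y.2
  have h3 := Nat.le_of_dvd hp.pos (orderOf_dvd_of_pow_eq_one h2)
  rw [h1] at h3
  have := hp.two_le
  nlinarith

theorem cyclic_of_pq {G : Type} [CommGroup G] [Finite G]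
    (h : ∀ (A : Subgroup G) (p q : ℕ), p.Prime → q.Prime → Nat.card A = p * q → IsCyclic A) :
    IsCyclic G := by
  classical
  have : Fintype G := Fintype.ofFinite G
  have key : ∀ n : ℕ, 0 < n → Nat.card (powMonoidHom n : G →* G).ker ≤ n := by
    intro n
    induction n using Nat.recOnMul with
    | zero => intro h0; exact absurd h0 (lt_irrefl _)
    | one =>
      intro _
      have : (powMonoidHom 1 : G →* G).ker = ⊥ := by
        ext x
        rw [MonoidHom.mem_ker, Subgroup.mem_bot, powMonoidHom_apply, pow_one]
      rw [this, Subgroup.card_bot]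
    | prime p hp => intro _; exact card_pow_prime_le h hp
    | mul a b ha hb =>
      intro hab
      have ha0 : 0 < a := Nat.pos_of_mul_pos_right hab |> fun _ => Nat.pos_of_ne_zero (by
        rintro rfl
        simp at hab)
      have hb0 : 0 < b := Nat.pos_of_ne_zero (by
        rintro rfl
        simp at hab)
      -- the map `x ↦ x ^ a` from the kernel of `a b` to the kernel of `b`
      let f : (powMonoidHom (a * b) : G →* G).ker →* (powMonoidHom b : G →* G).ker :=
        { toFun := fun x => ⟨x.1 ^ a, by
            rw [MonoidHom.mem_ker, powMonoidHom_apply, ← pow_mul]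
            exact x.2⟩
          map_one' := by
            apply Subtype.ext
            exact one_pow a
          map_mul' := fun x y => by
            apply Subtype.ext
            exact mul_pow x.1 y.1 a }
      have h1 : Nat.card (powMonoidHom (a * b) : G →* G).ker = Nat.card f.ker * Nat.card f.range := by
        rw [← Subgroup.card_mul_index f.ker, Subgroup.index_ker]
      have h2 : Nat.card f.range ≤ b :=
        (Nat.card_le_card_of_injective _ Subtype.val_injective).trans (hb hb0)
      have h3 : Nat.card f.ker ≤ a := by
        refine le_trans (Nat.card_le_card_of_injective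
          (β := (powMonoidHom a : G →* G).ker)
          (fun x => ⟨x.1.1, by
            have := x.2
            rw [MonoidHom.mem_ker] at this
            rw [MonoidHom.mem_ker, powMonoidHom_apply]
            exact congrArg Subtype.val this⟩) ?_) (ha ha0)
        intro x y hxy
        apply Subtype.ext
        apply Subtype.ext
        have h4 := Subtype.ext_iff.1 hxy
        exact h4
      rw [h1]
      exact Nat.mul_le_mul h3 h2
  refine isCyclic_of_card_pow_eq_one_le fun n hn => ?_
  refine le_trans (le_of_eq ?_) (key n hn)
  rw [Nat.card_eq_fintype_card, ← Fintype.card_subtype]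
  exact Fintype.card_congr (Equiv.refl _)

end Pool.Agent.Q274.HI
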