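import Pool.Agent.Q5.RG.Asc3
import Pool.Agent.Q5.RG.PQ

/-! Equivariant maps and invariant forms: from the invariants of the nontrivial subgroups of a
noncyclic group of order `p q` to the whole space. -/

set_option autoImplicit false
set_option linter.unusedSectionVars false

namespace Pool.Agent.Q274.HI

open Pool.Agent.Q5.RG
open scoped Classical

section
variable {G : Type} [Group G] [Fintype G] {V : Type} [AddCommGroup V] [Module ℚ V]

/-- linear maps which form an action on a subspace -/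
structure Act (T : G → V →ₗ[ℚ] V) (V0 : Submodule ℚ V) : Prop where
  mem : ∀ a x, x ∈ V0 → T a x ∈ V0
  one : ∀ x ∈ V0, T 1 x = x
  mul : ∀ a b x, x ∈ V0 → T (a * b) x = T a (T b x)

/-- the sum over a subgroup -/
noncomputable def nm (T : G → V →ₗ[ℚ] V) (B : Subgroup G) (x : V) : V :=
  ∑ g : G, if g ∈ B then T g x else 0

variable {T : G → V →ₗ[ℚ] V} {V0 : Submodule ℚ V}

theorem nm_mem {S : Submodule ℚ V} (hS : ∀ a, ∀ x ∈ S, T a x ∈ S) (B : Subgroup G) {x : V}
    (hx : x ∈ S) : nm T B x ∈ S := by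
  refine Submodule.sum_mem _ fun g _ => ?_
  split_ifs
  · exact hS g x hx
  · exact Submodule.zero_mem _

theorem nm_inv (h : Act T V0) {B : Subgroup G} {b : G} (hb : b ∈ B) {x : V} (hx : x ∈ V0) :
    T b (nm T B x) = nm T B x := by
  unfold nm
  rw [map_sum]
  have h1 : ∀ g : G, T b (if g ∈ B then T g x else 0) = if b * g ∈ B then T (b * g) x else 0 := by
    intro g
    by_cases hg : g ∈ B
    · rw [if_pos hg, if_pos (B.mul_mem hb hg), h.mul b g x hx]
    · rw [if_neg hg, if_neg (fun h' => hg ((Subgroup.mul_mem_cancel_left B hb).1 h')), map_zero]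
  rw [Finset.sum_congr rfl fun g _ => h1 g]
  exact Fintype.sum_equiv (Equiv.mulLeft b) _ _ fun g => rfl

theorem map_nm {L : V →ₗ[ℚ] V} (hL : ∀ a, ∀ x ∈ V0, L (T a x) = T a (L x)) (B : Subgroup G) {x : V}
    (hx : x ∈ V0) : L (nm T B x) = nm T B (L x) := by
  unfold nm
  rw [map_sum]
  refine Finset.sum_congr rfl fun g _ => ?_
  split_ifs
  · exact hL g x hx
  · exact map_zero _

theorem sum_nm (h : Act T V0) (c : Subgroup G → ℚ)
    (hc : ∀ g : G, ∑ B, (if g ∈ B then c B else 0) = if g = 1 then 1 else 0) {x : V} (hx : x ∈ V0) :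
    ∑ B, c B • nm T B x = x := by
  unfold nm
  simp_rw [Finset.smul_sum]
  rw [Finset.sum_comm]
  have h1 : ∀ g : G, ∑ B : Subgroup G, c B • (if g ∈ B then T g x else 0) =
      (if g = 1 then (1 : ℚ) else 0) • T g x := by
    intro g
    rw [← hc g, Finset.sum_smul]
    refine Finset.sum_congr rfl fun B _ => ?_
    split_ifs
    · rfl
    · rw [smul_zero, zero_smul]
  rw [Finset.sum_congr rfl fun g _ => h1 g, Finset.sum_eq_single 1]
  · rw [if_pos rfl, one_smul, h.one x hx]
  · intro g _ hg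
    rw [if_neg hg, zero_smul]
  · intro h'
    exact absurd (Finset.mem_univ _) h'

/-- **Bijectivity.** -/
theorem bij_asc (h : Act T V0) (hsp : Spans (G := G) fun B => B ≠ ⊥) {L : V →ₗ[ℚ] V}
    (hL : ∀ a, ∀ x ∈ V0, L (T a x) = T a (L x)) {S S' : Submodule ℚ V} (hS0 : S ≤ V0) (hS0' : S' ≤ V0)
    (hS : ∀ a, ∀ x ∈ S, T a x ∈ S) (hS' : ∀ a, ∀ x ∈ S', T a x ∈ S')
    (hm : ∀ x ∈ S, L x ∈ S')
    (hB : ∀ B : Subgroup G, B ≠ ⊥ → Set.BijOn L {x | x ∈ S ∧ ∀ b ∈ B, T b x = x}
      {x | x ∈ S' ∧ ∀ b ∈ B, T b x = x}) : Set.BijOn L S S' := by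
  obtain ⟨c, hc0, hc⟩ := hsp
  refine ⟨hm, ?_, ?_⟩
  · have key : ∀ x ∈ S, L x = 0 → x = 0 := by
      intro x hx hx0
      rw [← sum_nm h c hc (hS0 hx)]
      refine Finset.sum_eq_zero fun B _ => ?_
      by_cases hcB : c B = 0
      · rw [hcB, zero_smul]
      · have h1 : nm T B x ∈ {x | x ∈ S ∧ ∀ b ∈ B, T b x = x} :=
          ⟨nm_mem hS B hx, fun b hb => nm_inv h hb (hS0 hx)⟩
        have h2 : (0 : V) ∈ {x | x ∈ S ∧ ∀ b ∈ B, T b x = x} :=
          ⟨Submodule.zero_mem _, fun b _ => map_zero _⟩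
        have h3 : L (nm T B x) = L 0 := by
          rw [map_nm hL B (hS0 hx), hx0, map_zero]
          unfold nm
          refine Finset.sum_eq_zero fun g _ => ?_
          split_ifs
          · exact map_zero _
          · rfl
        rw [(hB B (hc0 B hcB)).2.1 h1 h2 h3, smul_zero]
    intro x hx y hy hxy
    have h1 := key (x - y) (Submodule.sub_mem _ hx hy) (by rw [map_sub, hxy, sub_self])
    exact sub_eq_zero.1 h1
  · intro y hy
    have h1 : ∀ B : Subgroup G, ∃ z ∈ S, c B • nm T B y = L z := by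
      intro B
      by_cases hcB : c B = 0
      · exact ⟨0, Submodule.zero_mem _, by rw [hcB, zero_smul, map_zero]⟩
      · obtain ⟨z, hz, hz'⟩ := (hB B (hc0 B hcB)).2.2
          (show nm T B y ∈ {x | x ∈ S' ∧ ∀ b ∈ B, T b x = x} from
            ⟨nm_mem hS' B hy, fun b hb => nm_inv h hb (hS0' hy)⟩)
        exact ⟨c B • z, Submodule.smul_mem _ _ hz.1, by rw [map_smul, hz']⟩
    choose z hz hz' using h1
    refine ⟨∑ B, z B, Submodule.sum_mem _ fun B _ => hz B, ?_⟩
    rw [map_sum, ← sum_nm h c hc (hS0' hy)]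
    exact Finset.sum_congr rfl fun B _ => (hz' B).symm

variable {q : V →ₗ[ℚ] V →ₗ[ℚ] ℝ}

theorem card_filter_mem (B : Subgroup G) :
    ((Finset.univ.filter fun g : G => g ∈ B).card) = Nat.card B := by
  rw [← Fintype.card_subtype, Nat.card_eq_fintype_card]

/-- the sum against an invariant vector -/
theorem q_nm_left (h : Act T V0) (hq : ∀ a, ∀ x ∈ V0, ∀ y ∈ V0, q (T a x) (T a y) = q x y)
    {B : Subgroup G} {x y : V} (hx : x ∈ V0) (hy : y ∈ V0) (hyB : ∀ b ∈ B, T b y = y) :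
    q (nm T B x) y = (Nat.card B : ℝ) * q x y := by
  unfold nm
  rw [map_sum, LinearMap.sum_apply]
  have h1 : ∀ g : G, q (if g ∈ B then T g x else 0) y = if g ∈ B then q x y else 0 := by
    intro g
    by_cases hg : g ∈ B
    · rw [if_pos hg, if_pos hg]
      conv_lhs => rw [← hyB g hg]
      exact hq g x hx y hy
    · rw [if_neg hg, if_neg hg, map_zero, LinearMap.zero_apply]
  rw [Finset.sum_congr rfl fun g _ => h1 g, ← Finset.sum_filter, Finset.sum_const, card_filter_mem,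
    nsmul_eq_mul]

theorem q_nm_right (h : Act T V0) (hq : ∀ a, ∀ x ∈ V0, ∀ y ∈ V0, q (T a x) (T a y) = q x y)
    {B : Subgroup G} {x y : V} (hx : x ∈ V0) (hy : y ∈ V0) (hxB : ∀ b ∈ B, T b x = x) :
    q x (nm T B y) = (Nat.card B : ℝ) * q x y := by
  unfold nm
  rw [map_sum]
  have h1 : ∀ g : G, q x (if g ∈ B then T g y else 0) = if g ∈ B then q x y else 0 := by
    intro g
    by_cases hg : g ∈ B
    · rw [if_pos hg, if_pos hg]
      conv_lhs => rw [← hxB g hg]
      exact hq g x hx y hy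
    · rw [if_neg hg, if_neg hg, map_zero]
  rw [Finset.sum_congr rfl fun g _ => h1 g, ← Finset.sum_filter, Finset.sum_const, card_filter_mem,
    nsmul_eq_mul]

theorem sum_mid (h : Act T V0) {p r : ℕ} (hp : p.Prime) (hr : r.Prime) (hc : Nat.card G = p * r)
    (hn : ¬ IsCyclic G) {x : V} (hx : x ∈ V0) :
    ∑ B ∈ mid G, nm T B x = (((mid G).card : ℚ) - 1) • x + nm T ⊤ x := by
  unfold nm
  rw [Finset.sum_comm]
  have h1 : ∀ g : G, ∑ B ∈ mid G, (if g ∈ B then T g x else 0) =
      (if g = 1 then ((mid G).card : ℚ) else 1) • T g x := by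
    intro g
    rw [← Finset.sum_filter, Finset.sum_const]
    by_cases hg : g = 1
    · subst hg
      rw [if_pos rfl, Finset.filter_true_of_mem fun B _ => B.one_mem, Nat.cast_smul_eq_nsmul]
    · rw [if_neg hg, count_mid hp hr hc hn hg, Finset.card_singleton, one_smul, one_smul]
  have h2 : ∀ g : G, (if g ∈ (⊤ : Subgroup G) then T g x else 0) = T g x :=
    fun g => if_pos (Subgroup.mem_top g)
  rw [Finset.sum_congr rfl fun g _ => h1 g, Finset.sum_congr rfl fun g _ => h2 g,
    ← Finset.add_sum_erase _ _ (Finset.mem_univ (1 : G)),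
    ← Finset.add_sum_erase _ (fun g => T g x) (Finset.mem_univ (1 : G)), if_pos rfl, h.one x hx,
    sub_smul, one_smul]
  have h3 : ∑ g ∈ Finset.univ.erase (1 : G), (if g = 1 then ((mid G).card : ℚ) else 1) • T g x =
      ∑ g ∈ Finset.univ.erase (1 : G), T g x :=
    Finset.sum_congr rfl fun g hg => by rw [if_neg (Finset.ne_of_mem_erase hg), one_smul]
  rw [h3]
  abel

theorem sum_card_mid {p r : ℕ} (hp : p.Prime) (hr : r.Prime) (hc : Nat.card G = p * r)
    (hn : ¬ IsCyclic G) :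
    ∑ B ∈ mid G, (Nat.card B : ℝ) = ((mid G).card : ℝ) - 1 + Nat.card G := by
  have h0 : ∀ B : Subgroup G, (Nat.card B : ℝ) = ∑ g : G, if g ∈ B then (1 : ℝ) else 0 := by
    intro B
    rw [← Finset.sum_filter, Finset.sum_const, card_filter_mem, nsmul_eq_mul, mul_one]
  rw [Finset.sum_congr rfl fun B _ => h0 B, Finset.sum_comm]
  have h1 : ∀ g : G, ∑ B ∈ mid G, (if g ∈ B then (1 : ℝ) else 0) =
      if g = 1 then ((mid G).card : ℝ) else 1 := by
    intro g
    rw [← Finset.sum_filter, Finset.sum_const, nsmul_eq_mul, mul_one]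
    by_cases hg : g = 1
    · subst hg
      rw [if_pos rfl, Finset.filter_true_of_mem fun B _ => B.one_mem]
    · rw [if_neg hg, count_mid hp hr hc hn hg, Finset.card_singleton, Nat.cast_one]
  rw [Finset.sum_congr rfl fun g _ => h1 g, ← Finset.add_sum_erase _ _ (Finset.mem_univ (1 : G)),
    if_pos rfl, Finset.sum_congr rfl fun g hg => if_neg (Finset.ne_of_mem_erase hg),
    Finset.sum_const, Finset.card_erase_of_mem (Finset.mem_univ _), Finset.card_univ,
    Nat.card_eq_fintype_card, nsmul_eq_mul, mul_one, Nat.cast_sub Fintype.card_pos, Nat.cast_one]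
  ring

/-- **Positivity.** -/
theorem pos_asc (h : Act T V0) {p r : ℕ} (hp : p.Prime) (hr : r.Prime) (hc : Nat.card G = p * r)
    (hn : ¬ IsCyclic G) (hq : ∀ a, ∀ x ∈ V0, ∀ y ∈ V0, q (T a x) (T a y) = q x y)
    {P : Submodule ℚ V} (hP0 : P ≤ V0) (hP : ∀ a, ∀ x ∈ P, T a x ∈ P)
    (hB : ∀ B : Subgroup G, B ≠ ⊥ → ∀ x ∈ P, (∀ b ∈ B, T b x = x) → x ≠ 0 → 0 < q x x) :
    ∀ x ∈ P, x ≠ 0 → 0 < q x x := by
  intro x hx hx0
  have hm := two_le_mid hp hr hc hn
  have htop : (⊤ : Subgroup G) ≠ ⊥ := by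
    have h1 : 0 < (mid G).card := by omega
    obtain ⟨B, hBm⟩ := Finset.card_pos.1 h1
    rw [mid, Finset.mem_filter] at hBm
    intro h'
    exact hBm.2.1 (le_antisymm (h' ▸ le_top) bot_le)
  set m : ℝ := ((mid G).card : ℝ) with hmd
  have hm1 : (1 : ℝ) ≤ m - 1 := by
    have : (2 : ℝ) ≤ m := by
      rw [hmd]
      exact_mod_cast hm
    linarith
  have hV := hP0 hx
  have hnn : ∀ B : Subgroup G, B ≠ ⊥ → ∀ y ∈ P, (∀ b ∈ B, T b y = y) → 0 ≤ q y y := by
    intro B hB0 y hy hyB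
    by_cases hy0 : y = 0
    · simp [hy0]
    · exact (hB B hB0 y hy hyB hy0).le
  have hN : (0 : ℝ) < Nat.card G := by exact_mod_cast Nat.card_pos
  set e := nm T (⊤ : Subgroup G) x with he
  have heP : e ∈ P := nm_mem hP _ hx
  have heI : ∀ B : Subgroup G, ∀ b ∈ B, T b e = e :=
    fun B b _ => nm_inv h (Subgroup.mem_top b) hV
  set a := q e e with ha
  have hxe : q x e = a / Nat.card G := by
    have h1 := q_nm_left h hq (B := ⊤) hV (hP0 heP) (heI ⊤)
    rw [← he, ← ha, Subgroup.card_top] at h1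
    rw [h1]
    field_simp
  have hex : q e x = a / Nat.card G := by
    have h1 := q_nm_right h hq (B := ⊤) (hP0 heP) hV (heI ⊤)
    rw [← he, ← ha, Subgroup.card_top] at h1
    rw [h1]
    field_simp
  have hb : ∀ B : Subgroup G, (0 : ℝ) < Nat.card B := fun B => by exact_mod_cast Nat.card_pos
  -- the vectors `u_B`
  let u : Subgroup G → V := fun B => (Nat.card B : ℚ)⁻¹ • nm T B x - (Nat.card G : ℚ)⁻¹ • e
  have huP : ∀ B, u B ∈ P := fun B =>
    Submodule.sub_mem _ (Submodule.smul_mem _ _ (nm_mem hP _ hx)) (Submodule.smul_mem _ _ heP)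
  have huI : ∀ B, ∀ b ∈ B, T b (u B) = u B := by
    intro B b hbB
    change T b ((Nat.card B : ℚ)⁻¹ • nm T B x - (Nat.card G : ℚ)⁻¹ • e) = _
    rw [map_sub, map_smul, map_smul, nm_inv h hbB hV, heI B b hbB]
  have hqB : ∀ B, q (nm T B x) x = q (nm T B x) (nm T B x) / Nat.card B := by
    intro B
    have h1 := q_nm_right h hq (B := B) (x := nm T B x) (y := x) (hP0 (nm_mem hP _ hx)) hV
      (fun b hb' => nm_inv h hb' hV)
    rw [h1]
    have := hb B
    field_simp
  have hsm : ∀ (c : ℚ) (y z : V), q (c • y) z = (c : ℝ) * q y z := by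
    intro c y z
    rw [map_smul, LinearMap.smul_apply, Rat.smul_def]
  have hsm' : ∀ (c : ℚ) (y z : V), q y (c • z) = (c : ℝ) * q y z := by
    intro c y z
    rw [map_smul, Rat.smul_def]
  have hqu : ∀ B, q (u B) (u B) = q (nm T B x) (nm T B x) / (Nat.card B : ℝ) ^ 2 -
      a / (Nat.card G : ℝ) ^ 2 := by
    intro B
    have h1 : q (nm T B x) e = Nat.card B * (a / Nat.card G) := by
      rw [q_nm_left h hq (B := B) hV (hP0 heP) (heI B), hxe]
    have h2 : q e (nm T B x) = Nat.card B * (a / Nat.card G) := by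
      rw [q_nm_right h hq (B := B) (hP0 heP) hV (heI B), hex]
    change q ((Nat.card B : ℚ)⁻¹ • nm T B x - (Nat.card G : ℚ)⁻¹ • e)
      ((Nat.card B : ℚ)⁻¹ • nm T B x - (Nat.card G : ℚ)⁻¹ • e) = _
    have hs1 : ∀ y z w : V, q (y - z) w = q y w - q z w := fun y z w => by
      rw [map_sub, LinearMap.sub_apply]
    have hs2 : ∀ y z w : V, q w (y - z) = q w y - q w z := fun y z w => map_sub _ _ _
    rw [hs1, hs2, hs2, hsm, hsm, hsm, hsm, hsm', hsm', hsm', hsm', h1, h2, ← ha]
    have := hb B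
    push_cast
    field_simp
    ring
  have hkey : (m - 1) * q x x = ∑ B ∈ mid G, (Nat.card B : ℝ) * q (u B) (u B) +
      (m - 1) * (a / (Nat.card G : ℝ) ^ 2) := by
    have h1 : q (∑ B ∈ mid G, nm T B x) x = (m - 1) * q x x + a / Nat.card G := by
      rw [sum_mid h hp hr hc hn hV, map_add, LinearMap.add_apply, hsm, ← he, hex]
      push_cast
      rw [hmd]
    rw [map_sum, LinearMap.sum_apply, Finset.sum_congr rfl fun B _ => hqB B] at h1
    have h2 : ∑ B ∈ mid G, (Nat.card B : ℝ) * q (u B) (u B) =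
        ∑ B ∈ mid G, q (nm T B x) (nm T B x) / Nat.card B -
          (∑ B ∈ mid G, (Nat.card B : ℝ)) * (a / (Nat.card G : ℝ) ^ 2) := by
      rw [Finset.sum_mul, ← Finset.sum_sub_distrib]
      refine Finset.sum_congr rfl fun B _ => ?_
      rw [hqu]
      have := hb B
      field_simp
    rw [h2, h1, sum_card_mid hp hr hc hn, ← hmd]
    field_simp
    ring
  by_contra hcon
  have hcon := not_lt.1 hcon
  have ha0 : 0 ≤ a := hnn ⊤ htop e heP (heI ⊤)
  have hu0 : ∀ B ∈ mid G, 0 ≤ (Nat.card B : ℝ) * q (u B) (u B) := by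
    intro B hBm
    rw [mid, Finset.mem_filter] at hBm
    exact mul_nonneg (hb B).le (hnn B hBm.2.1 (u B) (huP B) (huI B))
  have hs0 : 0 ≤ ∑ B ∈ mid G, (Nat.card B : ℝ) * q (u B) (u B) := Finset.sum_nonneg hu0
  have h4 : 0 ≤ (m - 1) * (a / (Nat.card G : ℝ) ^ 2) := by positivity
  have h5 : (m - 1) * q x x ≤ 0 := mul_nonpos_of_nonneg_of_nonpos (by linarith) hcon
  have h6 : ∑ B ∈ mid G, (Nat.card B : ℝ) * q (u B) (u B) = 0 := by linarith
  have h7 : (m - 1) * (a / (Nat.card G : ℝ) ^ 2) = 0 := by linarith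
  have ha' : a = 0 := by
    rcases mul_eq_zero.1 h7 with h' | h'
    · linarith
    · rcases div_eq_zero_iff.1 h' with h'' | h''
      · exact h''
      · exact absurd h'' (by positivity)
  have he0 : e = 0 := by
    by_contra he0
    exact absurd ha' (hB ⊤ htop e heP (heI ⊤) he0).ne'
  have hN0 : ∀ B ∈ mid G, nm T B x = 0 := by
    intro B hBm
    have h8 := (Finset.sum_eq_zero_iff_of_nonneg hu0).1 h6 B hBm
    have h9 : q (u B) (u B) = 0 := by
      rcases mul_eq_zero.1 h8 with h' | h'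
      · exact absurd h' (hb B).ne'
      · exact h'
    have h10 : u B = 0 := by
      by_contra hu
      rw [mid, Finset.mem_filter] at hBm
      exact absurd h9 (hB B hBm.2.1 (u B) (huP B) (huI B) hu).ne'
    change (Nat.card B : ℚ)⁻¹ • nm T B x - (Nat.card G : ℚ)⁻¹ • e = 0 at h10
    rw [he0, smul_zero, sub_zero, smul_eq_zero] at h10
    rcases h10 with h' | h'
    · have h11 : (Nat.card B : ℚ) ≠ 0 := by exact_mod_cast Nat.card_pos.ne'
      exact absurd h' (inv_ne_zero h11)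
    · exact h'
  have h12 := sum_mid h hp hr hc hn hV
  rw [Finset.sum_eq_zero hN0, ← he, he0, add_zero] at h12
  rcases smul_eq_zero.1 h12.symm with h' | h'
  · have : (((mid G).card : ℚ) - 1 : ℚ) ≠ 0 := by
      have : (2 : ℚ) ≤ (mid G).card := by exact_mod_cast hm
      linarith
    exact this h'
  · exact hx0 h'

end

end Pool.Agent.Q274.HI
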