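import Pool.Agent.Q274.HI.Core

/-! Height pairings over number fields: the properties pass from subfields. -/

set_option autoImplicit false
set_option linter.unusedSectionVars false

namespace Pool.Agent.Q274.HI

open Pool.Agent.Q5.RG Module NumberField Pool.Agent.W353.NF Pool.Agent.W401.Cheb Pool.Agent.Q5.BR
open scoped Classical

section
variable {K : Type} [Field K] [NumberField K] {F : Type} [Field F] [NumberField F] [Algebra K F]
variable {V : Type} [AddCommGroup V] [Module ℚ V]

/-- the vectors fixed by a subgroup of the Galois group -/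
def fx (ρ : Gal(AlgebraicClosure K/K) →* (V →ₗ[ℚ] V)) (Δ : Subgroup Gal(AlgebraicClosure K/K)) :
    Submodule ℚ V where
  carrier := {x | ∀ σ ∈ Δ, ρ σ x = x}
  add_mem' := fun {a b} ha hb σ hσ => by rw [map_add, ha σ hσ, hb σ hσ]
  zero_mem' := fun σ _ => map_zero _
  smul_mem' := fun c x hx σ hσ => by rw [map_smul, hx σ hσ]

variable (ρ : Gal(AlgebraicClosure K/K) →* (V →ₗ[ℚ] V)) (i : F →ₐ[K] AlgebraicClosure K)
  (A : Subgroup (F ≃ₐ[K] F))

/-- the action of an automorphism through a lift -/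
noncomputable def TT (a : A) : V →ₗ[ℚ] V := ρ ((Function.surjInv (tF_surj i A) a : stF i A) : GK K)

theorem t_lift (a : A) : tF i A (Function.surjInv (tF_surj i A) a) = a :=
  Function.surjInv_eq (tF_surj i A) a

theorem tF_one_iff {σ : stF i A} : tF i A σ = 1 ↔ (σ : GK K) ∈ stabE i := by
  constructor
  · intro h x
    rw [tF_spec i σ x, h]
    rfl
  · intro h
    apply Subtype.ext
    apply AlgEquiv.ext
    intro x
    exact i.injective ((tF_spec i σ x).symm.trans (h x))

theorem fx_eq {x : V} (hx : x ∈ fx ρ (stabE i)) {σ τ : stF i A} (h : tF i A σ = tF i A τ) :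
    ρ (σ : GK K) x = ρ (τ : GK K) x := by
  have h1 : tF i A (τ⁻¹ * σ) = 1 := by rw [map_mul, map_inv, h, inv_mul_cancel]
  have h2 := hx _ ((tF_one_iff i A).1 h1)
  have h3 : ρ ((τ : GK K) * ((τ⁻¹ * σ : stF i A) : GK K)) x = ρ (τ : GK K) x := by
    rw [map_mul]
    change ρ (τ : GK K) (ρ ((τ⁻¹ * σ : stF i A) : GK K) x) = _
    rw [h2]
  have h4 : (τ : GK K) * ((τ⁻¹ * σ : stF i A) : GK K) = (σ : GK K) := by
    change (τ : GK K) * ((τ : GK K)⁻¹ * (σ : GK K)) = _
    rw [mul_inv_cancel_left]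
  rwa [h4] at h3

theorem fx_act {x : V} (hx : x ∈ fx ρ (stabE i)) (σ : stF i A) :
    ρ (σ : GK K) x ∈ fx ρ (stabE i) := by
  intro τ hτ
  have hτA : τ ∈ stF i A := by
    have h := stF_mono (i := i) (bot_le (a := A))
    rw [stF_bot] at h
    exact h hτ
  have h1 : tF i A (⟨τ, hτA⟩ * σ) = tF i A σ := by
    rw [map_mul, (tF_one_iff i A).2 (show ((⟨τ, hτA⟩ : stF i A) : GK K) ∈ stabE i from hτ), one_mul]
  have h2 := fx_eq ρ i A hx h1
  have h3 : (((⟨τ, hτA⟩ : stF i A) * σ : stF i A) : GK K) = τ * (σ : GK K) := rfl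
  rw [h3, map_mul] at h2
  exact h2

theorem act_TT : Act (TT ρ i A) (fx ρ (stabE i)) where
  mem := fun a x hx => fx_act ρ i A hx _
  one := fun x hx => by
    have h1 := fx_eq ρ i A hx (σ := Function.surjInv (tF_surj i A) 1) (τ := 1)
      (by rw [t_lift, map_one])
    refine h1.trans ?_
    have h2 : ((1 : stF i A) : GK K) = 1 := rfl
    rw [h2, map_one]
    rfl
  mul := fun a b x hx => by
    have h1 := fx_eq ρ i A hx (σ := Function.surjInv (tF_surj i A) (a * b))
      (τ := Function.surjInv (tF_surj i A) a * Function.surjInv (tF_surj i A) b)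
      (by rw [t_lift, map_mul, t_lift, t_lift])
    refine h1.trans ?_
    have h2 : ((Function.surjInv (tF_surj i A) a * Function.surjInv (tF_surj i A) b : stF i A) : GK K)
      = ((Function.surjInv (tF_surj i A) a : stF i A) : GK K) *
        ((Function.surjInv (tF_surj i A) b : stF i A) : GK K) := rfl
    rw [h2, map_mul]
    rfl

/-- the vectors fixed by a subgroup of the automorphisms -/
theorem fx_stF (B : Subgroup A) (x : V) : x ∈ fx ρ (stF i (B.map A.subtype)) ↔
    x ∈ fx ρ (stabE i) ∧ ∀ b ∈ B, TT ρ i A b x = x := by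
  constructor
  · intro hx
    refine ⟨fun σ hσ => hx σ ?_, fun b hb => hx _ ?_⟩
    · have h := stF_mono (i := i) (bot_le (a := B.map A.subtype))
      rw [stF_bot] at h
      exact h hσ
    · have h1 : (Function.surjInv (tF_surj i A) b : stF i A) ∈
          (stF i (B.map A.subtype)).subgroupOf (stF i A) := by
        rw [stF_sub, Subgroup.mem_comap, t_lift]
        exact hb
      exact Subgroup.mem_subgroupOf.1 h1
  · rintro ⟨hx, hB⟩ σ hσ
    have hσA : σ ∈ stF i A := stF_mono (map_sub_le A B) hσ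
    have h1 : (⟨σ, hσA⟩ : stF i A) ∈ (stF i (B.map A.subtype)).subgroupOf (stF i A) :=
      Subgroup.mem_subgroupOf.2 hσ
    rw [stF_sub, Subgroup.mem_comap] at h1
    have h2 := hB _ h1
    have h3 := fx_eq ρ i A hx (σ := ⟨σ, hσA⟩)
      (τ := Function.surjInv (tF_surj i A) (tF i A ⟨σ, hσA⟩)) (by rw [t_lift])
    exact h3.trans h2

end

end Pool.Agent.Q274.HI
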