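import Pool.Agent.Q274.HI.Minimal

/-! Finite groups of operators without fixed vectors: the order of the group and the dimension. -/

set_option autoImplicit false
set_option linter.unusedSectionVars false

namespace Pool.Agent.Q274.HI

open Pool.Agent.Q5.RG Module
open scoped Classical

/-! ### integral matrices -/

section mat
variable {G : Type} [Group G] [Fintype G] {r : ℕ}

/-- no fixed vectors modulo a prime which does not divide the order -/
theorem free_mod (M : G →* Matrix (Fin r) (Fin r) ℤ)
    (hM : ∀ g : G, g ≠ 1 → ∀ v : Fin r → ℤ, (M g).mulVec v = v → v = 0) {l : ℕ} (hl : l.Prime)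
    (hd : ¬ l ∣ Nat.card G) {g : G} (hg : g ≠ 1) {w : Fin r → ZMod l}
    (hw : ((M g).map (Int.castRingHom (ZMod l))).mulVec w = w) : w = 0 := by
  have : Fact l.Prime := ⟨hl⟩
  have hcast : ∀ i, ∃ a : ℤ, (a : ZMod l) = w i := fun i => ZMod.intCast_surjective (w i)
  choose v hv using hcast
  have hmv : ∀ (B : Matrix (Fin r) (Fin r) ℤ) (i : Fin r),
      ((B.mulVec v i : ℤ) : ZMod l) = (B.map (Int.castRingHom (ZMod l))).mulVec w i := by
    intro B i
    unfold Matrix.mulVec dotProduct
    push_cast
    refine Finset.sum_congr rfl fun j _ => ?_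
    rw [hv]
    rfl
  have hpow : ∀ j : ℕ, ((M (g ^ j)).map (Int.castRingHom (ZMod l))).mulVec w = w := by
    intro j
    induction j with
    | zero => rw [pow_zero, map_one, Matrix.map_one _ (map_zero _) (map_one _), Matrix.one_mulVec]
    | succ j ih =>
      rw [pow_succ, map_mul, Matrix.map_mul, ← Matrix.mulVec_mulVec, hw, ih]
  set e := orderOf g with he
  let S : Fin r → ℤ := ∑ j ∈ Finset.range e, (M (g ^ j)).mulVec v
  have hS : (M g).mulVec S = S := by
    have h1 : (M g).mulVec S = ∑ j ∈ Finset.range e, (M (g ^ (j + 1))).mulVec v := by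
      change (M g).mulVec (∑ j ∈ Finset.range e, (M (g ^ j)).mulVec v) = _
      rw [Matrix.mulVec_sum]
      refine Finset.sum_congr rfl fun j _ => ?_
      rw [Matrix.mulVec_mulVec, ← map_mul, pow_succ']
    have h2 := Finset.sum_range_succ (fun j => (M (g ^ j)).mulVec v) e
    rw [Finset.sum_range_succ'] at h2
    rw [← h1, he, pow_orderOf_eq_one, pow_zero] at h2
    exact add_right_cancel h2
  have hS0 := hM g hg S hS
  funext i
  have h3 : ((S i : ℤ) : ZMod l) = (e : ZMod l) * w i := by
    change (((∑ j ∈ Finset.range e, (M (g ^ j)).mulVec v) i : ℤ) : ZMod l) = _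
    rw [Finset.sum_apply]
    push_cast
    rw [Finset.sum_congr rfl fun j _ => (hmv (M (g ^ j)) i).trans (congrFun (hpow j) i),
      Finset.sum_const, Finset.card_range, nsmul_eq_mul]
  rw [hS0] at h3
  have h4 : (e : ZMod l) ≠ 0 := by
    intro h'
    rw [ZMod.natCast_eq_zero_iff] at h'
    exact hd (h'.trans (orderOf_dvd_natCard g))
  rw [Pi.zero_apply, Int.cast_zero] at h3
  exact (mul_eq_zero.1 h3.symm).resolve_left h4

/-- the order divides the number of nonzero vectors modulo `l` -/
theorem card_dvd_mat (M : G →* Matrix (Fin r) (Fin r) ℤ)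
    (hM : ∀ g : G, g ≠ 1 → ∀ v : Fin r → ℤ, (M g).mulVec v = v → v = 0) {l : ℕ} (hl : l.Prime)
    (hd : ¬ l ∣ Nat.card G) : Nat.card G ∣ l ^ r - 1 := by
  have : Fact l.Prime := ⟨hl⟩
  let N : G →* Matrix (Fin r) (Fin r) (ZMod l) :=
    ((Int.castRingHom (ZMod l)).mapMatrix : Matrix (Fin r) (Fin r) ℤ →+* _).toMonoidHom.comp M
  have hN : ∀ g : G, g ≠ 1 → ∀ w : Fin r → ZMod l, (N g).mulVec w = w → w = 0 :=
    fun g hg w hw => free_mod M hM hl hd hg hw
  let X := {w : Fin r → ZMod l // w ≠ 0}
  let act : MulAction G X :=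
    { smul := fun g w => ⟨(N g).mulVec w.1, fun h => w.2 (by
        have h1 : (N g⁻¹).mulVec ((N g).mulVec w.1) = w.1 := by
          rw [Matrix.mulVec_mulVec, ← map_mul, inv_mul_cancel, map_one, Matrix.one_mulVec]
        rw [← h1, h, Matrix.mulVec_zero])⟩
      one_smul := fun w => Subtype.ext (by
        change (N 1).mulVec w.1 = w.1
        rw [map_one, Matrix.one_mulVec])
      mul_smul := fun g h w => Subtype.ext (by
        change (N (g * h)).mulVec w.1 = (N g).mulVec ((N h).mulVec w.1)
        rw [map_mul, Matrix.mulVec_mulVec]) }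
  have hst : ∀ w : X, MulAction.stabilizer G w = ⊥ := by
    intro w
    rw [eq_bot_iff]
    intro g hg
    rw [Subgroup.mem_bot]
    by_contra hg1
    have h1 : (N g).mulVec w.1 = w.1 := congrArg Subtype.val (MulAction.mem_stabilizer_iff.1 hg)
    exact w.2 (hN g hg1 w.1 h1)
  have h1 := MulAction.card_eq_sum_card_group_div_card_stabilizer G X
  have h2 : Fintype.card X = l ^ r - 1 := by
    have h3 : Fintype.card X = Fintype.card (Fin r → ZMod l) - 1 := by
      rw [Fintype.card_subtype_compl, Fintype.card_subtype_eq]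
    rw [h3, Fintype.card_fun, ZMod.card, Fintype.card_fin]
  rw [← h2, h1, Nat.card_eq_fintype_card]
  refine Finset.dvd_sum fun x _ => ?_
  have h4 : Fintype.card (MulAction.stabilizer G x.out) = 1 := by
    rw [← Nat.card_eq_fintype_card, hst, Subgroup.card_bot]
  rw [h4, Nat.div_one]

end mat

/-! ### lattices -/

section lat
variable {G : Type} [Group G] [Fintype G] {U : Type} [AddCommGroup U] [Module ℚ U]
  [FiniteDimensional ℚ U]

/-- the lattice spanned by the translates of a basis -/
noncomputable def lat (R : G →* (U →ₗ[ℚ] U)) : Submodule ℤ U :=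
  Submodule.span ℤ (Set.range fun a : G × Fin (finrank ℚ U) => R a.1 (finBasis ℚ U a.2))

theorem lat_mem (R : G →* (U →ₗ[ℚ] U)) (g : G) {x : U} (hx : x ∈ lat R) : R g x ∈ lat R := by
  have h1 : lat R ≤ (lat R).comap ((R g).restrictScalars ℤ) := by
    refine Submodule.span_le.2 ?_
    rintro _ ⟨⟨h, j⟩, rfl⟩
    change R g (R h (finBasis ℚ U j)) ∈ lat R
    have h2 : R g (R h (finBasis ℚ U j)) = R (g * h) (finBasis ℚ U j) := by
      rw [map_mul]
      rfl
    rw [h2]
    exact Submodule.subset_span ⟨(g * h, j), rfl⟩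
  exact h1 hx

/-- **The order of a finite group of operators without fixed vectors.** -/
theorem card_dvd (R : G →* (U →ₗ[ℚ] U)) (hR : ∀ g : G, g ≠ 1 → ∀ x, R g x = x → x = 0) {l : ℕ}
    (hl : l.Prime) (hd : ¬ l ∣ Nat.card G) : Nat.card G ∣ l ^ (finrank ℚ U) - 1 := by
  have hfin : Module.Finite ℤ (lat R) :=
    Module.Finite.iff_fg.2 (Submodule.fg_span (Set.finite_range _))
  have hat : IsAddTorsionFree U := IsAddTorsionFree.of_module_rat U
  have hfree : Module.Free ℤ (lat R) := inferInstance
  set r := finrank ℤ (lat R) with hr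
  let bL : Basis (Fin r) ℤ (lat R) := finBasis ℤ (lat R)
  have hli : LinearIndependent ℤ fun j => ((bL j : lat R) : U) :=
    bL.linearIndependent.map' (lat R).subtype (Submodule.ker_subtype _)
  have hliQ : LinearIndependent ℚ fun j => ((bL j : lat R) : U) :=
    (LinearIndependent.iff_fractionRing ℤ ℚ).1 hli
  have hspan : ⊤ ≤ Submodule.span ℚ (Set.range fun j => ((bL j : lat R) : U)) := by
    rw [← (finBasis ℚ U).span_eq]
    refine Submodule.span_le.2 ?_
    rintro _ ⟨j, rfl⟩
    have h1 : finBasis ℚ U j ∈ lat R :=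
      Submodule.subset_span ⟨(1, j), by
        change R 1 (finBasis ℚ U j) = _
        rw [map_one]
        rfl⟩
    have h2 := bL.sum_repr ⟨_, h1⟩
    have h3 : finBasis ℚ U j = ∑ k, (bL.repr ⟨_, h1⟩ k : ℤ) • ((bL k : lat R) : U) := by
      have h4 := congrArg (Submodule.subtype (lat R)) h2
      rw [map_sum] at h4
      simpa using h4.symm
    rw [h3]
    refine Submodule.sum_mem _ fun k _ => ?_
    rw [← Int.cast_smul_eq_zsmul ℚ]
    exact Submodule.smul_mem _ _ (Submodule.subset_span ⟨k, rfl⟩)
  have hrk : finrank ℚ U = r := by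
    rw [finrank_eq_card_basis (Basis.mk hliQ hspan), Fintype.card_fin]
  let RL : G → lat R →ₗ[ℤ] lat R := fun g =>
    ((R g).restrictScalars ℤ).restrict (fun x hx => lat_mem R g hx)
  let M : G →* Matrix (Fin r) (Fin r) ℤ :=
    { toFun := fun g => LinearMap.toMatrix bL bL (RL g)
      map_one' := by
        have h1 : RL 1 = LinearMap.id := by
          apply LinearMap.ext
          intro x
          apply Subtype.ext
          change R 1 (x : U) = x
          rw [map_one]
          rfl
        rw [h1, LinearMap.toMatrix_id]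
      map_mul' := fun g h => by
        have h1 : RL (g * h) = RL g ∘ₗ RL h := by
          apply LinearMap.ext
          intro x
          apply Subtype.ext
          change R (g * h) (x : U) = R g (R h (x : U))
          rw [map_mul]
          rfl
        rw [h1, LinearMap.toMatrix_comp bL bL bL] }
  rw [hrk]
  refine card_dvd_mat M (fun g hg v hv => ?_) hl hd
  have h1 : (LinearMap.toMatrix bL bL (RL g)).mulVec v = v := hv
  have h2 : bL.equivFun (RL g (bL.equivFun.symm v)) = v := by
    have h3 := LinearMap.toMatrix_mulVec_repr bL bL (RL g) (bL.equivFun.symm v)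
    have h4 : (⇑(bL.repr (bL.equivFun.symm v)) : Fin r → ℤ) = v := by
      have := bL.equivFun.apply_symm_apply v
      exact this
    rw [h4, h1] at h3
    exact h3.symm
  have h3 : RL g (bL.equivFun.symm v) = bL.equivFun.symm v := by
    apply bL.equivFun.injective
    rw [h2, LinearEquiv.apply_symm_apply]
  have h4 : R g ((bL.equivFun.symm v : lat R) : U) = ((bL.equivFun.symm v : lat R) : U) :=
    congrArg Subtype.val h3
  have h5 := hR g hg _ h4
  have h6 : bL.equivFun.symm v = 0 := Subtype.ext h5
  rw [← bL.equivFun.apply_symm_apply v, h6, map_zero]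

/-- **The exponent of the unit group divides the dimension.** -/
theorem unit_pow (R : G →* (U →ₗ[ℚ] U)) (hR : ∀ g : G, g ≠ 1 → ∀ x, R g x = x → x = 0)
    (u : (ZMod (Nat.card G))ˣ) : u ^ (finrank ℚ U) = 1 := by
  have hn : NeZero (Nat.card G) := ⟨Nat.card_pos.ne'⟩
  obtain ⟨l, hlg, hl, hlu⟩ := Nat.forall_exists_prime_gt_and_eq_mod u.isUnit (Nat.card G)
  have h1 := card_dvd R hR hl (fun h => absurd (Nat.le_of_dvd Nat.card_pos h) (not_le.2 hlg))
  have h2 : ((l ^ (finrank ℚ U) - 1 : ℕ) : ZMod (Nat.card G)) = 0 :=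
    (ZMod.natCast_eq_zero_iff _ _).2 h1
  rw [Nat.cast_sub (Nat.one_le_pow _ _ hl.pos), Nat.cast_pow, Nat.cast_one, hlu, sub_eq_zero] at h2
  apply Units.ext
  rw [Units.val_pow_eq_pow_val, Units.val_one]
  exact h2

end lat

end Pool.Agent.Q274.HI
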