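import Pool.Agent.Q274.HI.Field
import Pool.Agent.Q274.HI.Group

/-! Beilinson's conjectures on height pairings: from subfields. -/

set_option autoImplicit false
set_option linter.unusedSectionVars false

namespace Pool.Agent.Q274.HI

open Pool.Agent.Q5.RG Module NumberField Pool.Agent.W353.NF Pool.Agent.W401.Cheb Pool.Agent.Q5.BR
open scoped Classical

section
variable {K : Type} [Field K] [NumberField K] {F : Type} [Field F] [NumberField F] [Algebra K F]
variable {V : Type} [AddCommGroup V] [Module ℚ V]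
variable {ρ : Gal(AlgebraicClosure K/K) →* (V →ₗ[ℚ] V)} {L : V →ₗ[ℚ] V} {q : V →ₗ[ℚ] V →ₗ[ℚ] ℝ}

/-- bijectivity on the invariants -/
theorem bij_field (hL : ∀ σ x, L (ρ σ x) = ρ σ (L x)) {C C' : Submodule ℚ V}
    (hC : ∀ σ, ∀ x ∈ C, ρ σ x ∈ C) (hC' : ∀ σ, ∀ x ∈ C', ρ σ x ∈ C') (hm : ∀ x ∈ C, L x ∈ C')
    (i : F →ₐ[K] AlgebraicClosure K) (A : Subgroup (F ≃ₐ[K] F)) {p r : ℕ} (hp : p.Prime)
    (hr : r.Prime) (hc : Nat.card A = p * r) (hn : ¬ IsCyclic A)
    (h : ∀ B : Subgroup (F ≃ₐ[K] F), B ≤ A → B ≠ ⊥ →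
      Set.BijOn L {x | x ∈ C ∧ x ∈ fx ρ (stF i B)} {x | x ∈ C' ∧ x ∈ fx ρ (stF i B)}) :
    Set.BijOn L {x | x ∈ C ∧ x ∈ fx ρ (stabE i)} {x | x ∈ C' ∧ x ∈ fx ρ (stabE i)} := by
  have hact := act_TT ρ i A
  have key := bij_asc (G := A) (L := L) hact (spans_pq hp hr hc hn)
    (fun a x _ => hL _ _) (S := C ⊓ fx ρ (stabE i)) (S' := C' ⊓ fx ρ (stabE i)) inf_le_right
    inf_le_right (fun a x hx => ⟨hC _ _ hx.1, hact.mem a x hx.2⟩)
    (fun a x hx => ⟨hC' _ _ hx.1, hact.mem a x hx.2⟩)
    (fun x hx => ⟨hm x hx.1, fun σ hσ => by rw [← hL, hx.2 σ hσ]⟩) (fun B hB => ?_)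
  · exact key
  · have h1 := h (B.map A.subtype) (map_sub_le A B) (fun h' => hB (by
      rwa [Subgroup.map_eq_bot_iff_of_injective _ A.subtype_injective] at h'))
    have h2 : ∀ D : Submodule ℚ V, {x | x ∈ D ⊓ fx ρ (stabE i) ∧ ∀ b ∈ B, TT ρ i A b x = x} =
        {x | x ∈ D ∧ x ∈ fx ρ (stF i (B.map A.subtype))} := by
      intro D
      ext x
      constructor
      · rintro ⟨⟨h3, h4⟩, h5⟩
        exact ⟨h3, (fx_stF ρ i A B x).2 ⟨h4, h5⟩⟩
      · rintro ⟨h3, h4⟩
        have h5 := (fx_stF ρ i A B x).1 h4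
        exact ⟨⟨h3, h5.1⟩, h5.2⟩
    rw [h2 C, h2 C']
    exact h1

/-- positivity on the invariants -/
theorem pos_field (hq : ∀ σ x y, q (ρ σ x) (ρ σ y) = q x y) {P : Submodule ℚ V}
    (hP : ∀ σ, ∀ x ∈ P, ρ σ x ∈ P)
    (i : F →ₐ[K] AlgebraicClosure K) (A : Subgroup (F ≃ₐ[K] F)) {p r : ℕ} (hp : p.Prime)
    (hr : r.Prime) (hc : Nat.card A = p * r) (hn : ¬ IsCyclic A)
    (h : ∀ B : Subgroup (F ≃ₐ[K] F), B ≤ A → B ≠ ⊥ → ∀ x ∈ P, x ∈ fx ρ (stF i B) → x ≠ 0 →
      0 < q x x) :
    ∀ x ∈ P, x ∈ fx ρ (stabE i) → x ≠ 0 → 0 < q x x := by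
  have hact := act_TT ρ i A
  have key := pos_asc (G := A) (q := q) hact hp hr hc hn (fun a x _ y _ => hq _ _ _)
    (P := P ⊓ fx ρ (stabE i)) inf_le_right (fun a x hx => ⟨hP _ _ hx.1, hact.mem a x hx.2⟩)
    (fun B hB x hx hxB hx0 => ?_)
  · exact fun x hx hx' hx0 => key x ⟨hx, hx'⟩ hx0
  · exact h (B.map A.subtype) (map_sub_le A B) (fun h' => hB (by
      rwa [Subgroup.map_eq_bot_iff_of_injective _ A.subtype_injective] at h')) x hx.1
      ((fx_stF ρ i A B x).2 ⟨hx.2, hxB⟩) hx0

/-- all subgroups of order `p q` are cyclic -/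
def CycPQ (G : Type) [Group G] : Prop :=
  ∀ (A : Subgroup G) (p q : ℕ), p.Prime → q.Prime → Nat.card A = p * q → IsCyclic A

/-- **The reduction** for a property of number fields which satisfies the ascent. -/
theorem reduce {Q : ∀ (F : Type) [Field F] [NumberField F] [Algebra K F], Prop}
    (hQ : ∀ (F : Type) [Field F] [NumberField F] [Algebra K F] (A : Subgroup (F ≃ₐ[K] F)) (p q : ℕ),
      p.Prime → q.Prime → Nat.card A = p * q → ¬ IsCyclic A →
      (∀ B : Subgroup (F ≃ₐ[K] F), B ≤ A → B ≠ ⊥ → Q (IntermediateField.fixedField B)) → Q F)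
    (D : ℕ) :
    ∀ (F : Type) [Field F] [NumberField F] [Algebra K F], finrank K F < D →
      (∀ (F' : Type) [Field F'] [NumberField F'] [Algebra K F'] [Algebra F' F]
        [IsScalarTower K F' F], CycPQ (F' ≃ₐ[K] F') → Q F') → Q F := by
  induction D with
  | zero => intro F _ _ _ h; exact absurd h (Nat.not_lt_zero _)
  | succ D ih =>
    intro F _ _ _ hD h
    by_cases hF : CycPQ (F ≃ₐ[K] F)
    · exact h F hF
    · have hfd : FiniteDimensional K F := fd_of_nf
      unfold CycPQ at hF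
      push Not at hF
      obtain ⟨A, p, q, hp, hq, hc, hn⟩ := hF
      refine hQ F A p q hp hq hc hn fun B hBA hB => ?_
      refine ih (IntermediateField.fixedField B) ?_ fun F'' _ _ _ _ _ hc' => ?_
      · have h1 := finrank_mul_finrank K (IntermediateField.fixedField B) F
        rw [IntermediateField.finrank_fixedField_eq_card] at h1
        have h2 : 1 < Nat.card B := by
          rw [Finite.one_lt_card_iff_nontrivial]
          exact (Subgroup.nontrivial_iff_ne_bot B).2 hB
        have h3 : 0 < finrank K (IntermediateField.fixedField B) := finrank_pos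
        have h4 : finrank K (IntermediateField.fixedField B) < finrank K F := by nlinarith
        omega
      · let _ : Algebra F'' F :=
          ((algebraMap (IntermediateField.fixedField B) F).comp
            (algebraMap F'' (IntermediateField.fixedField B))).toAlgebra
        have : IsScalarTower K F'' F := IsScalarTower.of_algebraMap_eq fun x => by
          change _ = algebraMap (IntermediateField.fixedField B) F
            (algebraMap F'' (IntermediateField.fixedField B) (algebraMap K F'' x))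
          rw [← IsScalarTower.algebraMap_apply K F'' (IntermediateField.fixedField B),
            ← IsScalarTower.algebraMap_apply K (IntermediateField.fixedField B) F]
        exact h F'' hc'

/-- abelian extensions -/
theorem cyclic_of_abelian [IsAbelianGalois K F] (h : CycPQ (F ≃ₐ[K] F)) : IsCyclic (F ≃ₐ[K] F) := by
  have hfd : FiniteDimensional K F := fd_of_nf
  let _ : CommGroup (F ≃ₐ[K] F) :=
    { (inferInstance : Group (F ≃ₐ[K] F)) with
      mul_comm := fun a b => (IsAbelianGalois.toIsMulCommutative (K := K) (L := F)).is_comm.comm a b }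
  exact cyclic_of_pq (G := F ≃ₐ[K] F) h

end

end Pool.Agent.Q274.HI
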