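import Pool.Agent.Q274.HI.Free

/-! Minimal fields over which a subspace of a representation has nonzero invariants. -/

set_option autoImplicit false
set_option linter.unusedSectionVars false

namespace Pool.Agent.Q274.HI

open Pool.Agent.Q5.RG Module NumberField Pool.Agent.W353.NF Pool.Agent.W401.Cheb Pool.Agent.Q5.BR
open scoped Classical

section act
variable {G : Type} [Group G] [Fintype G] {V : Type} [AddCommGroup V] [Module ℚ V]
variable {T : G → V →ₗ[ℚ] V} {V0 V1 : Submodule ℚ V}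

theorem Act.mono (h : Act T V0) (hle : V1 ≤ V0) (hm : ∀ a x, x ∈ V1 → T a x ∈ V1) : Act T V1 where
  mem := hm
  one := fun x hx => h.one x (hle hx)
  mul := fun a b x hx => h.mul a b x (hle hx)

theorem cyc_of_free (h : Act T V0) (hf : ∀ g, g ≠ 1 → ∀ x ∈ V0, T g x = x → x = 0) {x : V}
    (hx : x ∈ V0) (hx0 : x ≠ 0) {p r : ℕ} (hp : p.Prime) (hr : r.Prime)
    (hc : Nat.card G = p * r) : IsCyclic G := by
  by_contra hn
  obtain ⟨c, hc0, hc⟩ := spans_pq hp hr hc hn
  refine hx0 ?_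
  rw [← sum_nm h c hc hx]
  refine Finset.sum_eq_zero fun B _ => ?_
  by_cases hcB : c B = 0
  · rw [hcB, zero_smul]
  · obtain ⟨⟨b, hb⟩, hb0⟩ := Subgroup.ne_bot_iff_exists_ne_one.1 (hc0 B hcB)
    have hb1 : b ≠ 1 := fun h' => hb0 (Subtype.ext h')
    rw [hf _ hb1 _ (nm_mem h.mem B hx) (nm_inv h hb hx), smul_zero]

/-- the operators on the subspace -/
noncomputable def rep (h : Act T V0) : G →* (V0 →ₗ[ℚ] V0) where
  toFun := fun g => (T g).restrict (h.mem g)
  map_one' := LinearMap.ext fun x => Subtype.ext (h.one x.1 x.2)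
  map_mul' := fun a b => LinearMap.ext fun x => Subtype.ext (h.mul a b x.1 x.2)

theorem rep_free (h : Act T V0) (hf : ∀ g, g ≠ 1 → ∀ x ∈ V0, T g x = x → x = 0) :
    ∀ g : G, g ≠ 1 → ∀ x, rep h g x = x → x = 0 := fun g hg x hx =>
  Subtype.ext (hf g hg x.1 x.2 (congrArg Subtype.val hx))

theorem totient_of_free (h : Act T V0) (hf : ∀ g, g ≠ 1 → ∀ x ∈ V0, T g x = x → x = 0) (g : G) :
    Nat.totient (orderOf g) ∣ finrank ℚ V0 := by
  refine totient_dvd (T := rep h g) (orderOf_pos g) (cyclotomic_eq_zero (orderOf_pos g) ?_ ?_)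
  · rw [← map_pow, pow_orderOf_eq_one, map_one]
  · intro d hd hde v hv
    rw [← map_pow] at hv
    exact rep_free h hf _ (fun h' => absurd (Nat.le_of_dvd hd (orderOf_dvd_of_pow_eq_one h'))
      (not_le.2 hde)) v hv

theorem modEq_of_free (h : Act T V0) (hf : ∀ g, g ≠ 1 → ∀ x ∈ V0, T g x = x → x = 0)
    [FiniteDimensional ℚ V0] {n : ℕ} (hn : Nat.card G = n) {u : ℕ} (hu : u.Coprime n) :
    u ^ (finrank ℚ V0) ≡ 1 [MOD n] := by
  subst hn
  have h1 := unit_pow (rep h) (rep_free h hf) (ZMod.unitOfCoprime u hu)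
  have h2 := congrArg Units.val h1
  rw [Units.val_pow_eq_pow_val, ZMod.coe_unitOfCoprime, Units.val_one] at h2
  rw [← ZMod.natCast_eq_natCast_iff, Nat.cast_pow, Nat.cast_one]
  exact h2

end act

section
variable {K : Type} [Field K] [NumberField K] {V : Type} [AddCommGroup V] [Module ℚ V]

/-- the vectors fixed by the automorphisms which fix the field `E` -/
def ov (ρ : Gal(AlgebraicClosure K/K) →* (V →ₗ[ℚ] V))
    (E : IntermediateField K (AlgebraicClosure K)) : Submodule ℚ V where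
  carrier := {x | ∀ σ : Gal(AlgebraicClosure K/K), (∀ y ∈ E, σ y = y) → ρ σ x = x}
  add_mem' := fun {a b} ha hb σ hσ => by rw [map_add, ha σ hσ, hb σ hσ]
  zero_mem' := fun σ _ => map_zero _
  smul_mem' := fun c x hx σ hσ => by rw [map_smul, hx σ hσ]

variable (ρ : Gal(AlgebraicClosure K/K) →* (V →ₗ[ℚ] V)) (E : IntermediateField K (AlgebraicClosure K))

theorem ov_eq : ov ρ E = fx ρ (stabE E.val) := by
  ext x
  constructor
  · intro h σ hσ
    exact h σ fun y hy => hσ ⟨y, hy⟩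
  · intro h σ hσ
    exact h σ fun y => hσ y.1 y.2

theorem ov_mono {E E' : IntermediateField K (AlgebraicClosure K)} (h : E ≤ E') :
    ov ρ E ≤ ov ρ E' := fun _ hx σ hσ => hx σ fun y hy => hσ y (h hy)

theorem ov_lift [NumberField E] (B : Subgroup (E ≃ₐ[K] E)) :
    ov ρ (IntermediateField.lift (IntermediateField.fixedField B)) = fx ρ (stF E.val B) := by
  ext x
  constructor
  · intro h σ hσ
    refine h σ fun y hy => ?_
    have hyE : y ∈ E := IntermediateField.lift_le _ hy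
    have h1 : (⟨y, hyE⟩ : E) ∈ IntermediateField.fixedField B :=
      (IntermediateField.mem_lift (⟨y, hyE⟩ : E)).1 hy
    exact hσ ⟨⟨y, hyE⟩, h1⟩
  · intro h σ hσ
    refine h σ fun y => ?_
    exact hσ _ ((IntermediateField.mem_lift y.1).2 y.2)

theorem lift_lt [NumberField E] {B : Subgroup (E ≃ₐ[K] E)} (hB : B ≠ ⊥) :
    IntermediateField.lift (IntermediateField.fixedField B) < E := by
  refine lt_of_le_of_ne (IntermediateField.lift_le _) fun h => hB ?_
  rw [eq_bot_iff]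
  intro b hb
  rw [Subgroup.mem_bot]
  apply AlgEquiv.ext
  intro y
  have h1 : (y : AlgebraicClosure K) ∈ IntermediateField.lift (IntermediateField.fixedField B) := by
    rw [h]
    exact y.2
  have h2 := (IntermediateField.mem_lift y).1 h1
  exact (IntermediateField.mem_fixedField_iff B _).1 h2 b hb

variable {ρ} {E} {P : Submodule ℚ V}

/-- no fixed vectors over a minimal field -/
theorem free_field [NumberField E] (hmin : ∀ E' < E, ∀ x ∈ P, x ∈ ov ρ E' → x = 0)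
    (A : Subgroup (E ≃ₐ[K] E)) :
    ∀ a : A, a ≠ 1 → ∀ x ∈ P ⊓ ov ρ E, TT ρ E.val A a x = x → x = 0 := by
  intro a ha x hx hax
  have hfd : FiniteDimensional K E := fd_of_nf
  rw [ov_eq] at hx
  have hact := act_TT ρ E.val A
  let S : Subgroup A :=
    { carrier := {b | TT ρ E.val A b x = x}
      mul_mem' := fun {b c} hb hc => by
        have hb : TT ρ E.val A b x = x := hb
        have hc : TT ρ E.val A c x = x := hc
        change TT ρ E.val A (b * c) x = x
        rw [hact.mul b c x hx.2, hc, hb]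
      one_mem' := hact.one x hx.2
      inv_mem' := fun {b} hb => by
        have hb : TT ρ E.val A b x = x := hb
        change TT ρ E.val A b⁻¹ x = x
        conv_lhs => rw [← hb]
        rw [← hact.mul b⁻¹ b x hx.2, inv_mul_cancel, hact.one x hx.2] }
  let B : Subgroup A := Subgroup.zpowers a
  have hBS : B ≤ S := (Subgroup.zpowers_le (H := S)).2 hax
  have hB0 : B.map A.subtype ≠ ⊥ := by
    rw [Ne, Subgroup.map_eq_bot_iff_of_injective _ A.subtype_injective, Subgroup.zpowers_eq_bot]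
    exact ha
  refine hmin _ (lift_lt E hB0) x hx.1 ?_
  rw [ov_lift]
  exact (fx_stF ρ E.val A B x).2 ⟨hx.2, fun b hb => hBS hb⟩

theorem act_field [NumberField E] (hP : ∀ σ, ∀ x ∈ P, ρ σ x ∈ P) (A : Subgroup (E ≃ₐ[K] E)) :
    Act (TT ρ E.val A) (P ⊓ ov ρ E) := by
  have hact := act_TT ρ E.val A
  rw [ov_eq]
  exact hact.mono inf_le_right fun a x hx => ⟨hP _ _ hx.1, hact.mem a x hx.2⟩

theorem cycpq_min [NumberField E] (hP : ∀ σ, ∀ x ∈ P, ρ σ x ∈ P)
    (hmin : ∀ E' < E, ∀ x ∈ P, x ∈ ov ρ E' → x = 0) {x : V} (hx : x ∈ P) (hx' : x ∈ ov ρ E)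
    (hx0 : x ≠ 0) : CycPQ (E ≃ₐ[K] E) := by
  have hfd : FiniteDimensional K E := fd_of_nf
  intro A p r hp hr hc
  exact cyc_of_free (act_field hP A) (free_field hmin A) (x := x) ⟨hx, hx'⟩ hx0 hp hr hc

theorem comm_cyc {G : Type} [Group G] [Finite G] (h : CycPQ G) (A : Subgroup G)
    (hA : ∀ a ∈ A, ∀ b ∈ A, a * b = b * a) : IsCyclic A := by
  let _ : CommGroup A :=
    { (inferInstance : Group A) with
      mul_comm := fun a b => Subtype.ext (hA a.1 a.2 b.1 b.2) }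
  refine cyclic_of_pq (G := A) fun B p r hp hr hc => ?_
  let f := B.equivMapOfInjective A.subtype A.subtype_injective
  have h1 := h (B.map A.subtype) p r hp hr (by
    rw [← Nat.card_congr f.toEquiv, hc])
  exact isCyclic_of_surjective f.symm.toMonoidHom f.symm.surjective

/-- the action of any automorphism which maps the field to itself -/
theorem TT_eq [NumberField E] {σ : Gal(AlgebraicClosure K/K)} (hσ : ∀ y ∈ E, σ y ∈ E) :
    ∃ a : (⊤ : Subgroup (E ≃ₐ[K] E)), (∀ y : E, ((a : E ≃ₐ[K] E) y : AlgebraicClosure K) = σ y) ∧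
      ∀ x ∈ ov ρ E, ρ σ x = TT ρ E.val ⊤ a x := by
  have hfd : FiniteDimensional K E := fd_of_nf
  let f : E →ₐ[K] E := ((σ : AlgebraicClosure K →ₐ[K] AlgebraicClosure K).comp E.val).codRestrict
    E.toSubalgebra (fun y => hσ y.1 y.2)
  let b : E ≃ₐ[K] E := AlgEquiv.ofBijective f (Algebra.IsAlgebraic.algHom_bijective f)
  have hb : ∀ y : E, σ (E.val y) = E.val (b y) := fun y => rfl
  have hmem : σ ∈ stF E.val ⊤ := mem_stF.2 ⟨b, Subgroup.mem_top _, hb⟩
  refine ⟨tF E.val ⊤ ⟨σ, hmem⟩, fun y => (tF_spec E.val ⟨σ, hmem⟩ y).symm, fun x hx => ?_⟩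
  rw [ov_eq] at hx
  exact fx_eq ρ E.val ⊤ hx (σ := ⟨σ, hmem⟩) (by rw [t_lift])

theorem free_min [NumberField E] (hmin : ∀ E' < E, ∀ x ∈ P, x ∈ ov ρ E' → x = 0)
    {σ : Gal(AlgebraicClosure K/K)} (hσ : ∀ y ∈ E, σ y ∈ E) (hσ1 : ∃ y ∈ E, σ y ≠ y) {x : V}
    (hx : x ∈ P) (hx' : x ∈ ov ρ E) (h : ρ σ x = x) : x = 0 := by
  obtain ⟨a, ha, hax⟩ := TT_eq (ρ := ρ) hσ
  refine free_field hmin ⊤ a ?_ x ⟨hx, hx'⟩ ((hax x hx').symm.trans h)
  rintro rfl
  obtain ⟨y, hy, hy'⟩ := hσ1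
  exact hy' (ha ⟨y, hy⟩).symm

theorem totient_min [NumberField E] (hP : ∀ σ, ∀ x ∈ P, ρ σ x ∈ P)
    (hmin : ∀ E' < E, ∀ x ∈ P, x ∈ ov ρ E' → x = 0) (s : E ≃ₐ[K] E) :
    Nat.totient (orderOf s) ∣ finrank ℚ (P ⊓ ov ρ E : Submodule ℚ V) := by
  have hfd : FiniteDimensional K E := fd_of_nf
  have h1 := totient_of_free (act_field hP ⊤) (free_field hmin ⊤)
    (⟨s, Subgroup.mem_top s⟩ : (⊤ : Subgroup (E ≃ₐ[K] E)))
  rwa [Subgroup.orderOf_mk] at h1

theorem modEq_min [NumberField E] (hP : ∀ σ, ∀ x ∈ P, ρ σ x ∈ P)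
    (hmin : ∀ E' < E, ∀ x ∈ P, x ∈ ov ρ E' → x = 0)
    [FiniteDimensional ℚ (P ⊓ ov ρ E : Submodule ℚ V)] {u : ℕ}
    (hu : u.Coprime (Nat.card (E ≃ₐ[K] E))) :
    u ^ (finrank ℚ (P ⊓ ov ρ E : Submodule ℚ V)) ≡ 1 [MOD Nat.card (E ≃ₐ[K] E)] := by
  have hfd : FiniteDimensional K E := fd_of_nf
  exact modEq_of_free (act_field hP ⊤) (free_field hmin ⊤) Subgroup.card_top hu

/-- a minimal field -/
theorem exists_min [FiniteDimensional K E] {x : V} (hx : x ∈ P) (hx' : x ∈ ov ρ E) (hx0 : x ≠ 0) :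
    ∃ E0 ≤ E, (∃ y ∈ P, y ∈ ov ρ E0 ∧ y ≠ 0) ∧ ∀ E' < E0, ∀ y ∈ P, y ∈ ov ρ E' → y = 0 := by
  have key : ∀ n : ℕ, ∀ E1 ≤ E, finrank K E1 ≤ n → (∃ y ∈ P, y ∈ ov ρ E1 ∧ y ≠ 0) →
      ∃ E0 ≤ E, (∃ y ∈ P, y ∈ ov ρ E0 ∧ y ≠ 0) ∧ ∀ E' < E0, ∀ y ∈ P, y ∈ ov ρ E' → y = 0 := by
    intro n
    induction n with
    | zero =>
      intro E1 hE1 h0 _
      have hf : FiniteDimensional K E1 :=
        FiniteDimensional.of_injective (IntermediateField.inclusion hE1).toLinearMap
          (IntermediateField.inclusion_injective hE1)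
      have := (finrank_pos : 0 < finrank K E1)
      omega
    | succ n ih =>
      intro E1 hE1 hn h
      by_cases hm : ∀ E' < E1, ∀ y ∈ P, y ∈ ov ρ E' → y = 0
      · exact ⟨E1, hE1, h, hm⟩
      · push Not at hm
        obtain ⟨E', hlt, y, hy, hy', hy0⟩ := hm
        refine ih E' (hlt.le.trans hE1) ?_ ⟨y, hy, hy', hy0⟩
        have hf : FiniteDimensional K E1 :=
          FiniteDimensional.of_injective (IntermediateField.inclusion hE1).toLinearMap
            (IntermediateField.inclusion_injective hE1)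
        by_contra hcon
        have hle : finrank K E1 ≤ finrank K E' := by omega
        exact hlt.ne (IntermediateField.eq_of_le_of_finrank_le hlt.le hle)
  exact key _ E le_rfl le_rfl ⟨x, hx, hx', hx0⟩

end

end Pool.Agent.Q274.HI
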