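import Pool.Agent.Q274.HI.Main

/-! Minimal fields over which the invariants do not vanish. -/

set_option autoImplicit false
set_option linter.unusedSectionVars false

namespace Pool.Agent.Q274.HI

open Pool.Agent.Q5.RG Module NumberField Pool.Agent.W353.NF Pool.Agent.W401.Cheb Pool.Agent.Q5.BR
open scoped Classical

/-! ### operators without fixed vectors -/

section cyc
variable {V : Type} [AddCommGroup V] [Module ℚ V]

open Polynomial in
theorem cyclotomic_eq_zero {T : V →ₗ[ℚ] V} {e : ℕ} (he : 0 < e) (hT : T ^ e = 1)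
    (hf : ∀ d, 0 < d → d < e → ∀ v, (T ^ d) v = v → v = 0) :
    aeval T (cyclotomic e ℚ) = 0 := by
  have hinj : ∀ d ∈ e.divisors.erase e, ∀ v, aeval T (cyclotomic d ℚ) v = 0 → v = 0 := by
    intro d hd v hv
    rw [Finset.mem_erase, Nat.mem_divisors] at hd
    have hd0 : 0 < d := Nat.pos_of_dvd_of_pos hd.2.1 he
    have hde : d < e := lt_of_le_of_ne (Nat.le_of_dvd he hd.2.1) hd.1
    refine hf d hd0 hde v ?_
    obtain ⟨r, hr⟩ := cyclotomic.dvd_X_pow_sub_one d ℚ
    have h1 : aeval T (X ^ d - 1 : ℚ[X]) v = 0 := by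
      rw [hr, mul_comm, map_mul]
      change aeval T r (aeval T (cyclotomic d ℚ) v) = 0
      rw [hv, map_zero]
    rw [map_sub, map_pow, aeval_X, map_one] at h1
    exact sub_eq_zero.1 h1
  have hprod : ∀ s : Finset ℕ, (∀ d ∈ s, ∀ v, aeval T (cyclotomic d ℚ) v = 0 → v = 0) →
      ∀ v, aeval T (∏ d ∈ s, cyclotomic d ℚ) v = 0 → v = 0 := by
    intro s
    induction s using Finset.induction_on with
    | empty => intro _ v hv; simpa using hv
    | insert a s ha ih =>
      intro h v hv
      rw [Finset.prod_insert ha, map_mul] at hv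
      have h1 := h a (Finset.mem_insert_self a s) _ hv
      exact ih (fun d hd => h d (Finset.mem_insert_of_mem hd)) v h1
  apply LinearMap.ext
  intro v
  refine hprod _ hinj _ ?_
  have h2 : (∏ d ∈ e.divisors.erase e, cyclotomic d ℚ) * cyclotomic e ℚ = X ^ e - 1 := by
    rw [Finset.prod_erase_mul _ _ (Nat.mem_divisors_self e he.ne'), prod_cyclotomic_eq_X_pow_sub_one he]
  have h3 : aeval T ((∏ d ∈ e.divisors.erase e, cyclotomic d ℚ) * cyclotomic e ℚ) v = 0 := by
    rw [h2, map_sub, map_pow, aeval_X, map_one, hT, sub_self]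
    rfl
  rw [map_mul] at h3
  exact h3

open Polynomial in
/-- the dimension is divisible by the degree of the cyclotomic polynomial -/
theorem totient_dvd {T : V →ₗ[ℚ] V} {e : ℕ} (he : 0 < e)
    (h : aeval T (cyclotomic e ℚ) = 0) : Nat.totient e ∣ finrank ℚ V := by
  have hirr : Fact (Irreducible (cyclotomic e ℚ)) := ⟨cyclotomic.irreducible_rat he⟩
  let E := AdjoinRoot (cyclotomic e ℚ)
  let f : E →+* Module.End ℚ V := Ideal.Quotient.lift (Ideal.span {cyclotomic e ℚ})
    (aeval T : ℚ[X] →ₐ[ℚ] Module.End ℚ V).toRingHom (by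
    intro a ha
    obtain ⟨b, rfl⟩ := Ideal.mem_span_singleton'.1 ha
    change aeval T (b * cyclotomic e ℚ) = 0
    rw [map_mul, h, mul_zero])
  let _ : Module E V := Module.compHom V f
  have hst : IsScalarTower ℚ E V := ⟨fun q x v => by
    obtain ⟨y, rfl⟩ := Ideal.Quotient.mk_surjective x
    change aeval T (q • y) v = q • aeval T y v
    rw [map_smul]
    rfl⟩
  have h1 := finrank_mul_finrank ℚ E V
  have h2 : finrank ℚ E = Nat.totient e := by
    rw [(AdjoinRoot.powerBasis (cyclotomic_ne_zero e ℚ)).finrank, AdjoinRoot.powerBasis_dim,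
      natDegree_cyclotomic]
  rw [← h1, h2]
  exact dvd_mul_right _ _

end cyc

end Pool.Agent.Q274.HI
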